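import Pool.Agent.U80.OG.Odd
import Pool.Agent.Y682.KG

/-!
# The parity of the rank over an extension of odd degree (helper80; after U621/PAR/Pts)
-/

set_option autoImplicit false

set_option linter.unusedSectionVars false

namespace Pool.Agent.U80.OG

open WeierstrassCurve NumberField

open Pool.Agent.TH841.NF Pool.Agent.Y682

section pk

variable {k : Type} [Field k] {W : WeierstrassCurve k}

/-- a finite point -/
def pk (W : WeierstrassCurve k) (x y : k) (h : W.toAffine.Nonsingular x y) : MP W :=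
  Affine.Point.some x y h

lemma pk_cases (P : MP W) : P = 0 ∨ ∃ x y h, P = pk W x y h := by
  rcases P with _ | ⟨x, y, h⟩
  · exact Or.inl rfl
  · exact Or.inr ⟨x, y, h, rfl⟩

lemma pk_ext {x y x' y' : k} {h : W.toAffine.Nonsingular x y} {h' : W.toAffine.Nonsingular x' y'}
    (hx : x = x') (hy : y = y') : pk W x y h = pk W x' y' h' := by
  subst hx hy
  rfl

lemma pk_inj {x y x' y' : k} {h : W.toAffine.Nonsingular x y}
    {h' : W.toAffine.Nonsingular x' y'} (e : pk W x y h = pk W x' y' h') : x = x' ∧ y = y' := by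
  have h2 : (Affine.Point.some x y h : W.toAffine.Point) = Affine.Point.some x' y' h' := e
  rw [Affine.Point.some.injEq] at h2
  exact h2

end pk

variable {A B : ℤ}

lemma sc_hom (A B : ℤ) {k k' : Type} [Field k] [Field k'] (ι : k →+* k') :
    Sc ι 1 (gc A B k) (gc A B k') := by
  refine ⟨one_ne_zero, ?_, ?_, ?_, ?_, ?_⟩
  · change (0 : k') = ι (0 : k) * 1; rw [map_zero, zero_mul]
  · change (((A : ℤ) : k')) = ι (((A : ℤ) : k)) * 1 ^ 2
    rw [map_intCast]; ring
  · change (0 : k') = ι (0 : k) * 1 ^ 3; rw [map_zero, zero_mul]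
  · change (((B : ℤ) : k')) = ι (((B : ℤ) : k)) * 1 ^ 4
    rw [map_intCast]; ring
  · change (0 : k') = ι (0 : k) * 1 ^ 6; rw [map_zero, zero_mul]

/-- the map of the points -/
noncomputable def ac (A B : ℤ) {k k' : Type} [Field k] [Field k'] (ι : k →+* k') :
    MP (gc A B k) →+ MP (gc A B k') := mt (sc_hom A B ι)

lemma ns_map {k k' : Type} [Field k] [Field k'] (ι : k →+* k') {x y : k} :
    (gc A B k').toAffine.Nonsingular (ι x) (ι y) ↔ (gc A B k).toAffine.Nonsingular x y := by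
  have h1 := ns_iff (sc_hom A B ι) x y
  rwa [one_pow, one_pow, mul_one, mul_one] at h1

lemma ac_pk {k k' : Type} [Field k] [Field k'] (ι : k →+* k') (x y : k)
    (h : (gc A B k).toAffine.Nonsingular x y) :
    ac A B ι (pk (gc A B k) x y h) = pk (gc A B k') (ι x) (ι y) ((ns_map ι).2 h) := by
  have h1 : ac A B ι (pk (gc A B k) x y h) =
    pk (gc A B k') (ι x * 1 ^ 2) (ι y * 1 ^ 3) ((ns_iff (sc_hom A B ι) x y).2 h) := rfl
  rw [h1]
  exact pk_ext (by rw [one_pow, mul_one]) (by rw [one_pow, mul_one])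

lemma ac_comp {k : Type} [Field k] (ι κ ν : k →+* k) (h : ∀ x, ν x = ι (κ x)) (P : MP (gc A B k)) :
    ac A B ν P = ac A B ι (ac A B κ P) := by
  rcases pk_cases P with rfl | ⟨x, y, hx, rfl⟩
  · rw [map_zero, map_zero, map_zero]
  · rw [ac_pk, ac_pk, ac_pk]
    exact pk_ext (h x) (h y)

lemma ac_id {k : Type} [Field k] (ι : k →+* k) (h : ∀ x, ι x = x) (P : MP (gc A B k)) :
    ac A B ι P = P := by
  rcases pk_cases P with rfl | ⟨x, y, hx, rfl⟩
  · exact map_zero _
  · rw [ac_pk]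
    exact pk_ext (h x) (h y)

/-- the action of a group of automorphisms -/
noncomputable def rho (A B : ℤ) {L : Type} [Field L] [NumberField L] (N : Subgroup (L ≃ₐ[ℚ] L)) :
    N →* (MP (gc A B L) →ₗ[ℤ] MP (gc A B L)) where
  toFun σ := (ac A B ((σ : L ≃ₐ[ℚ] L) : L →+* L)).toIntLinearMap
  map_one' := LinearMap.ext fun P => ac_id _ (fun _ => rfl) P
  map_mul' σ τ := LinearMap.ext fun P =>
    ac_comp ((σ : L ≃ₐ[ℚ] L) : L →+* L) ((τ : L ≃ₐ[ℚ] L) : L →+* L) _ (fun _ => rfl) P

/-- **the parity of the rank** -/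
theorem rank_even (hB : B ≠ 0) (hC : A ^ 2 - 4 * B ≠ 0) (K M : IntermediateField ℚ ℂ) [NumberField K]
    [IsGalois ℚ K] (hMK : M ≤ K) {m : ℕ} (hm : Odd m)
    (hdeg : Module.finrank ℚ K = m * Module.finrank ℚ M)
    (hfin : Finite (MP (gc A B M))) : Even (Module.finrank ℤ (MP (gc A B K))) := by
  classical
  have hfg : Module.Finite ℤ (MP (gc A B K)) := fg_MP (gc_isT hB hC K)
  set F : IntermediateField ℚ K := IntermediateField.restrict hMK with hF
  have hcard : Nat.card F.fixingSubgroup = m := by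
    rw [IsGalois.card_fixingSubgroup_eq_finrank]
    have h1 := Module.finrank_mul_finrank ℚ F K
    have h2 : Module.finrank ℚ F = Module.finrank ℚ M :=
      (IntermediateField.restrict_algEquiv hMK).symm.toLinearEquiv.finrank_eq
    have h3 : 0 < Module.finrank ℚ F := Module.finrank_pos
    rw [hdeg, ← h2, mul_comm m] at h1
    exact Nat.eq_of_mul_eq_mul_left h3 h1
  have hodd : Odd (Fintype.card F.fixingSubgroup) := by
    rw [← Nat.card_eq_fintype_card, hcard]
    exact hm
  refine even_rank hodd (rho A B F.fixingSubgroup) fun P hP => ?_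
  rcases pk_cases P with rfl | ⟨x, y, hx, rfl⟩
  · exact ⟨1, one_ne_zero, smul_zero _⟩
  have hfix : ∀ σ ∈ F.fixingSubgroup, σ x = x ∧ σ y = y := by
    intro σ hσ
    have h1 : ac A B ((σ : K ≃ₐ[ℚ] K) : K →+* K) (pk (gc A B K) x y hx) = pk (gc A B K) x y hx :=
      hP ⟨σ, hσ⟩
    rw [ac_pk] at h1
    exact pk_inj h1
  have hmem : ∀ z : K, (∀ σ ∈ F.fixingSubgroup, σ z = z) → (z : ℂ) ∈ M := by
    intro z hz
    have h1 : z ∈ F := by
      rw [← IsGalois.fixedField_fixingSubgroup F, IntermediateField.mem_fixedField_iff]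
      exact hz
    exact (IntermediateField.mem_restrict hMK z).1 h1
  have hxM := hmem x fun σ hσ => (hfix σ hσ).1
  have hyM := hmem y fun σ hσ => (hfix σ hσ).2
  set j : M →+* K := (IntermediateField.inclusion hMK : M →+* K) with hj
  have jx : j ⟨x, hxM⟩ = x := rfl
  have jy : j ⟨y, hyM⟩ = y := rfl
  have hns : (gc A B M).toAffine.Nonsingular (⟨x, hxM⟩ : M) (⟨y, hyM⟩ : M) := by
    rw [← ns_map j, jx, jy]
    exact hx
  set Q : MP (gc A B M) := pk (gc A B M) ⟨x, hxM⟩ ⟨y, hyM⟩ hns with hQ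
  have hPQ : ac A B j Q = pk (gc A B K) x y hx := by
    rw [hQ, ac_pk]
    exact pk_ext jx jy
  have ho : IsOfFinAddOrder Q := isOfFinAddOrder_of_finite Q
  obtain ⟨n, hn, hnQ⟩ := isOfFinAddOrder_iff_nsmul_eq_zero.1 ho
  refine ⟨(n : ℤ), by exact_mod_cast hn.ne', ?_⟩
  rw [← hPQ, ← map_zsmul, natCast_zsmul, hnQ, map_zero]

end Pool.Agent.U80.OG
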