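import Pool.Agent.U80.PT.Root

/-!
# The root number over Galois number fields that contain a multiquadratic field of degree four (helper80)
-/

set_option autoImplicit false
set_option linter.all false

open IsDedekindDomain NumberField
open scoped Classical

namespace Pool.Agent.U80.OG

open Pool.Agent.N922.PX (LocalRootNumbers rootNumber GoodReduction IntegralAt)
open Pool.Agent.N922.PQ (IsPr Ov exists_below one_mem_of)
open Pool.Agent.U80.MQ (Om wt wt_sq sub_C exists_gens rt)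
open Pool.Agent.U80.PT
open Pool.Agent.N385.PX (act act_spec act_one act_mul val_inj)

section loc

variable {M : Type} [Field M] [NumberField M]

/-- from a factorization modulo `p` and an automorphism that exchanges the roots -/
theorem nf_of {v : HeightOneSpectrum (𝓞 M)} {y : M} {s t : ℤ}
    (hy : v.valuation M y ≤ 1) (σ : M ≃ₐ[ℚ] M) (hσ : σ y = s - y)
    (hprod : v.valuation M ((y - t) * (y - (s - t))) < 1) (hst : ¬ Ov (s - 2 * t) v) : ¬ ∀ x : M, v.valuation M (σ x) = v.valuation M x := by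
  intro hf
  have hint : ∀ c : ℤ, v.valuation M (y - c) ≤ 1 := fun c =>
    (v.valuation M).map_sub_le hy (val_le' c v)
  have key : ∀ t' : ℤ, (t' = t ∨ t' = s - t) → v.valuation M (y - t') < 1 → False := by
    intro t' ht' h1
    have h2 := hf (y - t')
    rw [map_sub, hσ, map_intCast] at h2
    have h3 : v.valuation M ((s : M) - y - t') < 1 := h2 ▸ h1
    have h4 : v.valuation M ((y - t') + ((s : M) - y - t')) < 1 :=
      lt_of_le_of_lt ((v.valuation M).map_add _ _) (max_lt h1 h3)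
    have e : (y - t') + ((s : M) - y - t') = ((s - 2 * t' : ℤ) : M) := by push_cast; ring
    rw [e, val_lt] at h4
    rcases ht' with rfl | rfl
    · exact hst h4
    · apply hst
      have e2 : s - 2 * (s - t) = -(s - 2 * t) := by ring
      rw [e2] at h4
      unfold Pool.Agent.N922.PQ.Ov at h4 ⊢
      rw [Int.cast_neg] at h4
      exact neg_mem_iff.1 h4
  rw [map_mul] at hprod
  by_contra _
  rcases lt_or_ge (v.valuation M (y - t)) 1 with h | h
  · exact key t (Or.inl rfl) h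
  · have h1 : v.valuation M (y - t) = 1 := le_antisymm (hint t) h
    rw [h1, one_mul] at hprod
    exact key (s - t) (Or.inr rfl) (by push_cast; exact hprod)

/-- odd `p` -/
theorem nf_odd {v : HeightOneSpectrum (𝓞 M)} {p : ℕ} (hp : p.Prime) (h2 : p ≠ 2)
    (hv : Ov (p : ℤ) v) {d : ℕ} {r : M} (hr : r ^ 2 = (d : M)) (hd : ¬ p ∣ d)
    (hs : IsSquare (d : ZMod p)) (σ : M ≃ₐ[ℚ] M) (hσ : σ r = -r) : ¬ ∀ x : M, v.valuation M (σ x) = v.valuation M x := by
  haveI : Fact p.Prime := ⟨hp⟩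
  have hP : IsPr (p : ℤ) := ⟨by exact_mod_cast hp.pos, Nat.prime_iff_prime_int.1 hp⟩
  obtain ⟨z, hz⟩ := hs
  obtain ⟨x, rfl⟩ := ZMod.intCast_surjective z
  have hdiv : (p : ℤ) ∣ (d : ℤ) - x * x := by
    rw [← ZMod.intCast_zmod_eq_zero_iff_dvd]
    push_cast
    rw [hz, sub_self]
  have hpx : ¬ (p : ℤ) ∣ x := by
    intro h
    have h3 : (p : ℤ) ∣ d := by
      have := dvd_add hdiv (h.mul_right x)
      rwa [sub_add_cancel] at this
    exact hd (by exact_mod_cast h3)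
  refine nf_of (y := r) (s := 0) (t := x) (int_of (b := 0) (c := -(d : ℤ)) ?_ v) σ ?_ ?_ ?_
  · push_cast
    rw [hr]
    ring
  · rw [hσ]
    push_cast
    ring
  · have e : (r - x) * (r - ((0 : ℤ) - x)) = (((d : ℤ) - x * x : ℤ) : M) := by
      push_cast
      rw [← hr]
      ring
    rw [e, val_lt]
    exact (ov_dvd hP hv).2 hdiv
  · intro h
    have h3 := (ov_dvd hP hv).1 h
    rw [zero_sub, dvd_neg] at h3
    rcases hP.2.dvd_or_dvd h3 with h4 | h4
    · have h5 : p ∣ 2 := by exact_mod_cast h4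
      exact h2 ((Nat.prime_dvd_prime_iff_eq hp Nat.prime_two).1 h5)
    · exact hpx h4

/-- `p = 2` -/
theorem nf_two {v : HeightOneSpectrum (𝓞 M)} (hv : Ov 2 v) {d : ℕ} {r : M}
    (hr : r ^ 2 = (d : M)) (hd : d % 8 = 1) (σ : M ≃ₐ[ℚ] M) (hσ : σ r = -r) : ¬ ∀ x : M, v.valuation M (σ x) = v.valuation M x := by
  have hP : IsPr (2 : ℤ) := ⟨by norm_num, Int.prime_two⟩
  obtain ⟨m, rfl⟩ : ∃ m, d = 8 * m + 1 := ⟨d / 8, by omega⟩
  have h2 : (2 : M) ≠ 0 := two_ne_zero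
  refine nf_of (y := (1 + r) / 2) (s := 1) (t := 0)
    (int_of (b := -1) (c := -(2 * m : ℤ)) ?_ v) σ ?_ ?_ ?_
  · push_cast at hr ⊢
    field_simp
    linear_combination hr
  · rw [map_div₀, map_add, map_one, hσ, map_ofNat]
    push_cast
    field_simp
    ring
  · have e : ((1 + r) / 2 - (0 : ℤ)) * ((1 + r) / 2 - ((1 : ℤ) - (0 : ℤ))) =
        ((2 * m : ℤ) : M) := by
      push_cast at hr ⊢
      field_simp
      linear_combination hr
    rw [e, val_lt]
    exact (ov_dvd hP hv).2 ⟨m, rfl⟩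
  · intro h
    have h3 := (ov_dvd hP hv).1 h
    omega

end loc

section prod

variable {M : Type} [Field M] [NumberField M]

/-- the product of the local root numbers, if no prime is stable under a `2`-group -/
theorem prod_one (H : Subgroup (M ≃ₐ[ℚ] M)) (hH : IsPGroup 2 H) {w : HeightOneSpectrum (𝓞 M) → ℤ}
    (hs : ∀ v, w v = 1 ∨ w v = -1) (hf : {v | w v ≠ 1}.Finite)
    (hc : ∀ (σ : M ≃ₐ[ℚ] M) (v v' : HeightOneSpectrum (𝓞 M)),
      (∀ x : M, v'.valuation M x = v.valuation M (σ x)) → w v' = w v)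
    (hno : ∀ v, w v = -1 → ∃ σ ∈ H, ¬ ∀ x : M, v.valuation M (σ x) = v.valuation M x) :
    ∏ᶠ v, w v = 1 := by
  have hN : {v | w v = -1} = {v | w v ≠ 1} := by
    ext v
    simp only [Set.mem_setOf_eq]
    rcases hs v with h | h <;> rw [h] <;> decide
  have hfin : {v | w v = -1}.Finite := by rw [hN]; exact hf
  have hwa : ∀ (σ : M ≃ₐ[ℚ] M) (v : HeightOneSpectrum (𝓞 M)), w (act σ v) = w v := fun σ v =>
    hc σ⁻¹ v (act σ v) (act_spec σ v)
  let N : Type := {v : HeightOneSpectrum (𝓞 M) // w v = -1}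
  haveI : Finite N := hfin.to_subtype
  letI ma : MulAction H N :=
    { smul := fun σ v => ⟨act σ.1 v.1, (hwa σ.1 v.1).trans v.2⟩
      one_smul := fun v => Subtype.ext (act_one v.1)
      mul_smul := fun σ τ v => Subtype.ext (act_mul σ.1 τ.1 v.1) }
  haveI : Fact (Nat.Prime 2) := ⟨Nat.prime_two⟩
  have hmod := hH.card_modEq_card_fixedPoints (α := N)
  have hempty : IsEmpty (MulAction.fixedPoints H N) := by
    refine ⟨fun v => ?_⟩
    obtain ⟨σ, hσ, hne⟩ := hno v.1.1 v.1.2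
    refine hne fun x => ?_
    have h1 : (⟨σ⁻¹, H.inv_mem hσ⟩ : H) • v.1 = v.1 := v.2 _
    have h2 : act σ⁻¹ v.1.1 = v.1.1 := congrArg Subtype.val h1
    have h3 := act_spec σ⁻¹ v.1.1 x
    rw [h2, inv_inv] at h3
    exact h3.symm
  rw [Nat.card_of_isEmpty (α := MulAction.fixedPoints H N)] at hmod
  have hcard : Nat.card N = {v | w v = -1}.ncard := Nat.card_coe_set_eq _
  rw [hcard] at hmod
  have hev : Even ({v | w v = -1}.ncard) := by
    rw [Nat.even_iff]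
    exact hmod
  have hprod : ∏ᶠ v, w v = (-1) ^ ({v | w v = -1}.ncard) := by
    rw [finprod_eq_prod_of_mulSupport_subset (s := hfin.toFinset) w ?_, Set.ncard_eq_toFinset_card _ hfin,
      Finset.prod_congr rfl (g := fun _ => (-1 : ℤ)) ?_, Finset.prod_const]
    · intro v hv
      exact hfin.mem_toFinset.1 hv
    · intro v hv
      rw [Set.Finite.coe_toFinset, hN]
      exact hv
  rw [hprod, hev.neg_one_pow]

/-- the number of the infinite places is even -/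
theorem inf_even [IsGalois ℚ M] (H : Subgroup (M ≃ₐ[ℚ] M)) (hH : IsPGroup 2 H) (h2 : 2 < Nat.card H) :
    Even (Nat.card (InfinitePlace M)) := by
  haveI : Fact (Nat.Prime 2) := ⟨Nat.prime_two⟩
  have hmod := hH.card_modEq_card_fixedPoints (α := InfinitePlace M)
  have hempty : IsEmpty (MulAction.fixedPoints H (InfinitePlace M)) := by
    refine ⟨fun w => ?_⟩
    have h3 : H ≤ MulAction.stabilizer (M ≃ₐ[ℚ] M) (w : InfinitePlace M) := by
      intro g hg
      rw [MulAction.mem_stabilizer_iff]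
      exact w.2 ⟨g, hg⟩
    have h4 := InfinitePlace.nat_card_stabilizer_eq_one_or_two ℚ (w : InfinitePlace M)
    have h5 := Subgroup.card_le_of_le h3
    omega
  rw [Nat.card_of_isEmpty (α := MulAction.fixedPoints H (InfinitePlace M))] at hmod
  exact even_iff_two_dvd.2 ((Nat.modEq_zero_iff_dvd).1 hmod)

end prod

section Syl

variable {K : IntermediateField ℚ ℂ} [NumberField K] [IsGalois ℚ K] {P S : Finset ℕ}

/-- an element of a Sylow group that changes the sign of a square root -/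
theorem autH (H : Sylow 2 (K ≃ₐ[ℚ] K)) (hP : ∀ q ∈ P, q.Prime) (hS : S ⊆ P) (h0 : S.Nonempty)
    (hK : wt S ∈ K) : ∃ σ : K ≃ₐ[ℚ] K, σ ∈ (H : Subgroup (K ≃ₐ[ℚ] K)) ∧
      σ ⟨wt S, hK⟩ = -⟨wt S, hK⟩ := by
  haveI : Fact (Nat.Prime 2) := ⟨Nat.prime_two⟩
  have hr : (⟨wt S, hK⟩ : K) ^ 2 = ((∏ q ∈ S, q : ℕ) : K) := by
    apply Subtype.ext
    push_cast
    rw [wt_sq]
    push_cast
    rfl
  set r : K := ⟨wt S, hK⟩ with hrd
  have hsgn : ∀ σ : K ≃ₐ[ℚ] K, σ r = r ∨ σ r = -r := fun σ =>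
    Pool.Agent.U80.MQ.sgn (σ := σ) (m := r) ⟨((∏ q ∈ S, q : ℕ) : ℚ), by rw [hr, map_natCast]⟩
  have h1 : ∃ σ : K ≃ₐ[ℚ] K, σ r ≠ r := by
    by_contra hcon
    push Not at hcon
    obtain ⟨c, hc⟩ := Pool.Agent.U80.MQ.fixed hcon
    refine wt_irr hP hS h0 c ?_
    have := congrArg (fun x : K => (x : ℂ)) hc
    simpa using this
  obtain ⟨τ, hτ⟩ := h1
  have hτ' : τ r = -r := (hsgn τ).resolve_left hτ
  have hne : -r ≠ r := fun h => hτ (hτ'.trans h)
  by_contra hcon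
  push Not at hcon
  let G : Subgroup (K ≃ₐ[ℚ] K) :=
    { carrier := {σ | σ r = r}
      one_mem' := rfl
      mul_mem' := fun {a b} (ha : a r = r) (hb : b r = r) => by
        show (a * b) r = r
        rw [AlgEquiv.mul_apply, hb, ha]
      inv_mem' := fun {a} (ha : a r = r) => by
        show a⁻¹ r = r
        have h2 : a⁻¹ (a r) = r := by
          rw [← AlgEquiv.mul_apply, inv_mul_cancel, AlgEquiv.one_apply]
        rwa [ha] at h2 }
  have hG : ∀ σ, σ ∈ G ↔ σ r = r := fun _ => Iff.rfl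
  have hidx : G.index = 2 := by
    rw [Subgroup.index_eq_two_iff]
    refine ⟨τ, fun b => ?_⟩
    rw [hG, hG, AlgEquiv.mul_apply, hτ', map_neg]
    rcases hsgn b with h | h
    · right
      exact ⟨h, by rw [h]; exact hne⟩
    · left
      refine ⟨by rw [h, neg_neg], ?_⟩
      rw [h]
      exact hne
  have hle : (H : Subgroup (K ≃ₐ[ℚ] K)) ≤ G := fun σ hσ => (hsgn σ).resolve_right (hcon σ hσ)
  have h2 := Subgroup.index_dvd_of_le hle
  rw [hidx] at h2
  exact H.not_dvd_index h2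

end Syl

section main

variable {P : Finset ℕ}

/-- the third square root -/
theorem third (hP : ∀ q ∈ P, q.Prime) (K : IntermediateField ℚ ℂ) {S T : Finset ℕ} (hS : S ⊆ P)
    (hSK : wt S ∈ K) (hTK : wt T ∈ K) : wt (symmDiff S T) ∈ K := by
  have hI0 : ((∏ q ∈ S ∩ T, q : ℕ) : ℂ) ≠ 0 := by
    rw [Nat.cast_ne_zero]
    exact Finset.prod_ne_zero_iff.2 fun q hq => (hP q (hS (Finset.mem_inter.1 hq).1)).ne_zero
  have h5 : wt (symmDiff S T) = ((∏ q ∈ S ∩ T, q : ℕ) : ℂ)⁻¹ * (wt S * wt T) := by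
    rw [wt_symm, ← mul_assoc, inv_mul_cancel₀ hI0, one_mul]
  rw [h5]
  exact mul_mem (inv_mem (natCast_mem K _)) (mul_mem hSK hTK)

/-- the Sylow group has more than two elements -/
theorem card_syl (hP : ∀ q ∈ P, q.Prime) (K : IntermediateField ℚ ℂ) [NumberField K] [IsGalois ℚ K]
    (H : Sylow 2 (K ≃ₐ[ℚ] K)) {S T : Finset ℕ} (hS : S ⊆ P) (hT : T ⊆ P) (hS0 : S.Nonempty)
    (hT0 : T.Nonempty) (hne : S ≠ T) (hSK : wt S ∈ K) (hTK : wt T ∈ K) :
    2 < Nat.card (H : Subgroup (K ≃ₐ[ℚ] K)) := by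
  have hUP : symmDiff S T ⊆ P := by
    intro x hx
    rcases Finset.mem_symmDiff.1 hx with h | h
    · exact hS h.1
    · exact hT h.1
  have hU0 : (symmDiff S T).Nonempty := by
    rw [Finset.nonempty_iff_ne_empty]
    intro h
    exact hne (symmDiff_eq_bot.1 h)
  have hUK := third hP K hS hSK hTK
  obtain ⟨a, ha, ha'⟩ := autH H hP hS hS0 hSK
  obtain ⟨b, hb, hb'⟩ := autH H hP hT hT0 hTK
  obtain ⟨c, hc, hc'⟩ := autH H hP hUP hU0 hUK
  have hnz : ∀ {U : Finset ℕ}, U ⊆ P → ∀ h : wt U ∈ K, (⟨wt U, h⟩ : K) ≠ 0 := by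
    intro U hU h h1
    have h2 : wt U = 0 := congrArg (fun x : K => (x : ℂ)) h1
    have h3 := wt_sq U
    rw [h2, zero_pow two_ne_zero] at h3
    have h4 : ((∏ q ∈ U, q : ℕ) : ℂ) ≠ 0 := by
      rw [Nat.cast_ne_zero]
      exact Finset.prod_ne_zero_iff.2 fun q hq => (hP q (hU hq)).ne_zero
    exact h4 h3.symm
  have hn1 : ∀ {U : Finset ℕ} (hU : U ⊆ P) (h : wt U ∈ K) (σ : K ≃ₐ[ℚ] K),
      σ ⟨wt U, h⟩ = -⟨wt U, h⟩ → σ ≠ 1 := by
    rintro U hU h σ hσ rfl
    rw [AlgEquiv.one_apply] at hσ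
    exact hnz hU h (self_eq_neg.1 hσ)
  by_contra hlt
  have hle : Nat.card (H : Subgroup (K ≃ₐ[ℚ] K)) ≤ 2 := not_lt.1 hlt
  have hpair : ∀ x y : K ≃ₐ[ℚ] K, x ∈ (H : Subgroup (K ≃ₐ[ℚ] K)) → y ∈ (H : Subgroup (K ≃ₐ[ℚ] K)) →
      x ≠ 1 → y ≠ 1 → x = y := by
    intro x y hx hy hx1 hy1
    by_contra hxy
    have h3 : 3 ≤ Nat.card (H : Subgroup (K ≃ₐ[ℚ] K)) := by
      have h4 : ({1, ⟨x, hx⟩, ⟨y, hy⟩} : Finset (H : Subgroup (K ≃ₐ[ℚ] K))).card = 3 := by
        rw [Finset.card_eq_three]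
        refine ⟨1, ⟨x, hx⟩, ⟨y, hy⟩, ?_, ?_, ?_, rfl⟩
        · intro h
          exact hx1 (congrArg Subtype.val h).symm
        · intro h
          exact hy1 (congrArg Subtype.val h).symm
        · intro h
          exact hxy (congrArg Subtype.val h)
      rw [← h4, Nat.card_eq_fintype_card]
      exact Finset.card_le_univ _
    omega
  have e1 := hpair a b ha hb (hn1 hS hSK a ha') (hn1 hT hTK b hb')
  have e2 := hpair a c ha hc (hn1 hS hSK a ha') (hn1 hUP hUK c hc')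
  subst e1
  rw [← e2] at hc'
  have hrel : (⟨wt S, hSK⟩ : K) * ⟨wt T, hTK⟩ = ((∏ q ∈ S ∩ T, q : ℕ) : K) * ⟨wt (symmDiff S T), hUK⟩ := by
    apply Subtype.ext
    have := wt_symm S T
    push_cast at this ⊢
    exact this
  have h5 := congrArg a hrel
  rw [map_mul, map_mul, ha', hb', hc', map_natCast, neg_mul_neg, hrel, mul_neg] at h5
  have h6 : ((∏ q ∈ S ∩ T, q : ℕ) : K) ≠ 0 := by
    rw [Nat.cast_ne_zero]
    exact Finset.prod_ne_zero_iff.2 fun q hq => (hP q (hS (Finset.mem_inter.1 hq).1)).ne_zero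
  exact mul_ne_zero h6 (hnz hUP hUK) (self_eq_neg.1 h5)

/-- **no prime outside the radicands is stable under a Sylow group** -/
theorem no_fix (hP : ∀ q ∈ P, q.Prime ∧ q % 8 = 1) (K : IntermediateField ℚ ℂ) [NumberField K]
    [IsGalois ℚ K] (H : Sylow 2 (K ≃ₐ[ℚ] K)) {S T : Finset ℕ} (hS : S ⊆ P) (hT : T ⊆ P)
    (hS0 : S.Nonempty) (hT0 : T.Nonempty) (hne : S ≠ T) (hSK : wt S ∈ K) (hTK : wt T ∈ K)
    (v : HeightOneSpectrum (𝓞 K)) (hv : ∀ q ∈ P, ¬ Ov (q : ℤ) v) :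
    ∃ σ ∈ (H : Subgroup (K ≃ₐ[ℚ] K)), ¬ ∀ x : K, v.valuation K (σ x) = v.valuation K x := by
  have hP' : ∀ q ∈ P, q.Prime := fun q hq => (hP q hq).1
  obtain ⟨p0, hp0, hpv⟩ := exists_below v
  obtain ⟨p, rfl⟩ : ∃ p : ℕ, p0 = p := ⟨p0.toNat, (Int.toNat_of_nonneg hp0.1.le).symm⟩
  have hp : p.Prime := Nat.prime_iff_prime_int.2 hp0.2
  have hpd : ∀ U : Finset ℕ, U ⊆ P → ¬ p ∣ ∏ q ∈ U, q := by
    intro U hU h
    obtain ⟨q, hq, h1⟩ := (Nat.Prime.prime hp).exists_mem_finset_dvd h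
    have h2 := (Nat.prime_dvd_prime_iff_eq hp (hP' q (hU hq))).1 h1
    exact hv q (hU hq) (h2 ▸ hpv)
  have hsq : ∀ {U : Finset ℕ} (h : wt U ∈ K), (⟨wt U, h⟩ : K) ^ 2 = ((∏ q ∈ U, q : ℕ) : K) := by
    intro U h
    apply Subtype.ext
    push_cast
    rw [wt_sq]
    push_cast
    rfl
  by_cases h2 : p = 2
  · subst h2
    obtain ⟨σ, hσH, hσ⟩ := autH H hP' hS hS0 hSK
    exact ⟨σ, hσH, nf_two hpv (hsq hSK) (prod_mod fun q hq => (hP q (hS hq)).2) σ hσ⟩
  · haveI : Fact p.Prime := ⟨hp⟩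
    have hne0 : ∀ U : Finset ℕ, U ⊆ P → (((∏ q ∈ U, q : ℕ) : ℤ) : ZMod p) ≠ 0 := by
      intro U hU h
      rw [ZMod.intCast_zmod_eq_zero_iff_dvd] at h
      exact hpd U hU (by exact_mod_cast h)
    have key : ∀ U : Finset ℕ, U ⊆ P → U.Nonempty → wt U ∈ K →
        IsSquare ((∏ q ∈ U, q : ℕ) : ZMod p) →
        ∃ σ ∈ (H : Subgroup (K ≃ₐ[ℚ] K)), ¬ ∀ x : K, v.valuation K (σ x) = v.valuation K x := by
      intro U hU hU0 hUK hs
      obtain ⟨σ, hσH, hσ⟩ := autH H hP' hU hU0 hUK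
      exact ⟨σ, hσH, nf_odd hp h2 hpv (hsq hUK) (hpd U hU) hs σ hσ⟩
    by_cases hs1 : IsSquare ((∏ q ∈ S, q : ℕ) : ZMod p)
    · exact key S hS hS0 hSK hs1
    by_cases hs2 : IsSquare ((∏ q ∈ T, q : ℕ) : ZMod p)
    · exact key T hT hT0 hTK hs2
    have hUP : symmDiff S T ⊆ P := by
      intro x hx
      rcases Finset.mem_symmDiff.1 hx with h | h
      · exact hS h.1
      · exact hT h.1
    have hU0 : (symmDiff S T).Nonempty := by
      rw [Finset.nonempty_iff_ne_empty]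
      intro h
      exact hne (symmDiff_eq_bot.1 h)
    refine key _ hUP hU0 (third hP' K hS hSK hTK) ?_
    have l1 : legendreSym p ((∏ q ∈ S, q : ℕ) : ℤ) = -1 := by
      rw [legendreSym.eq_neg_one_iff]
      exact_mod_cast hs1
    have l2 : legendreSym p ((∏ q ∈ T, q : ℕ) : ℤ) = -1 := by
      rw [legendreSym.eq_neg_one_iff]
      exact_mod_cast hs2
    have l3 : legendreSym p (((∏ q ∈ symmDiff S T, q : ℕ) : ℤ) * ((∏ q ∈ S ∩ T, q : ℕ) : ℤ) ^ 2) =
        1 := by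
      have e : ((∏ q ∈ symmDiff S T, q : ℕ) : ℤ) * ((∏ q ∈ S ∩ T, q : ℕ) : ℤ) ^ 2 =
          ((∏ q ∈ S, q : ℕ) : ℤ) * ((∏ q ∈ T, q : ℕ) : ℤ) := by
        exact_mod_cast (prod_symm S T).symm
      rw [e, legendreSym.mul, l1, l2]
      norm_num
    rw [legendreSym.mul, legendreSym.sq_one' (p := p)
      (hne0 (S ∩ T) (Finset.inter_subset_left.trans hS)), mul_one,
      legendreSym.eq_one_iff p (hne0 _ hUP)] at l3
    exact_mod_cast l3

/-- **The root number is `1`** over every Galois number field that contains two of the square roots. -/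
theorem root_one' (hP : ∀ q ∈ P, q.Prime ∧ q % 8 = 1) (K : IntermediateField ℚ ℂ) [NumberField K]
    [IsGalois ℚ K] {S T : Finset ℕ} (hS : S ⊆ P) (hT : T ⊆ P)
    (hS0 : S.Nonempty) (hT0 : T.Nonempty) (hne : S ≠ T) (hSK : wt S ∈ K) (hTK : wt T ∈ K) {A B : ℤ}
    (h0 : 16 * B ^ 2 * (A ^ 2 - 4 * B) ≠ 0)
    (hq : ∀ q ∈ P, ¬ (q : ℤ) ∣ 16 * B ^ 2 * (A ^ 2 - 4 * B)) {w : HeightOneSpectrum (𝓞 K) → ℤ}
    (hw : LocalRootNumbers K (E2 A B ℚ) w) :
    {v | w v ≠ 1}.Finite ∧ rootNumber K w = 1 := by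
  have hP' : ∀ q ∈ P, q.Prime := fun q hq => (hP q hq).1
  have hfin : {v | w v ≠ 1}.Finite := by
    refine ((Pool.Agent.N878.PX.t_rd K).2.1 _ h0).subset fun v hv h => hv ?_
    refine hw.good v (good_of fun h1 => ?_)
    rw [← val_lt, h] at h1
    exact lt_irrefl _ h1
  refine ⟨hfin, ?_⟩
  obtain ⟨H⟩ : Nonempty (Sylow 2 (K ≃ₐ[ℚ] K)) := inferInstance
  have hprod := prod_one (H : Subgroup (K ≃ₐ[ℚ] K)) H.isPGroup' hw.sign hfin hw.conj (fun v hv1 => by
    by_cases h : ∃ q ∈ P, Ov (q : ℤ) v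
    · exfalso
      obtain ⟨q, hqP, hov⟩ := h
      have hqp : IsPr (q : ℤ) :=
        ⟨by exact_mod_cast (hP q hqP).1.pos, Nat.prime_iff_prime_int.1 (hP q hqP).1⟩
      have h1 := hw.good v (good_of fun h2 => hq q hqP ((ov_dvd hqp hov).1 h2))
      rw [hv1] at h1
      norm_num at h1
    · push Not at h
      exact no_fix hP K H hS hT hS0 hT0 hne hSK hTK v h)
  have hie := inf_even (H : Subgroup (K ≃ₐ[ℚ] K)) H.isPGroup'
    (card_syl hP' K H hS hT hS0 hT0 hne hSK hTK)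
  unfold Pool.Agent.N922.PX.rootNumber
  rw [hprod, mul_one]
  exact hie.neg_one_pow

end main

end Pool.Agent.U80.OG
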