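import Mathlib

/-!
# The rank of a finitely generated group with an action of a group of odd order (helper80)
-/

set_option autoImplicit false

namespace Pool.Agent.U80.OG

open Matrix

/-- the trace of the inverse -/
theorem trace_inv {N : Type} [Group N] [Fintype N] {r : ℕ} (M : N →* Matrix (Fin r) (Fin r) ℝ) (g : N) :
    (M g⁻¹).trace = (M g).trace := by
  classical
  set B : Matrix (Fin r) (Fin r) ℝ := ∑ h : N, (M h)ᵀ * M h with hB
  have h1 : B * M g = (M g⁻¹)ᵀ * B := by
    rw [hB, Finset.sum_mul, Finset.mul_sum]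
    refine Fintype.sum_equiv (Equiv.mulRight g) _ _ fun h => ?_
    rw [Equiv.coe_mulRight]
    rw [← Matrix.mul_assoc, ← Matrix.transpose_mul, ← map_mul, mul_inv_cancel_right, Matrix.mul_assoc,
      ← map_mul]
  have hdet : B.det ≠ 0 := by
    intro h0
    obtain ⟨v, hv0, hv⟩ := Matrix.exists_mulVec_eq_zero_iff.2 h0
    have h2 : v ⬝ᵥ (B *ᵥ v) = ∑ h : N, (M h *ᵥ v) ⬝ᵥ (M h *ᵥ v) := by
      rw [hB, Matrix.sum_mulVec, dotProduct_sum]
      refine Finset.sum_congr rfl fun h _ => ?_
      rw [← Matrix.mulVec_mulVec, Matrix.dotProduct_mulVec, Matrix.vecMul_transpose]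
    rw [hv, dotProduct_zero] at h2
    have h3 : ∀ h ∈ Finset.univ, (0 : ℝ) ≤ (M h *ᵥ v) ⬝ᵥ (M h *ᵥ v) := fun h _ =>
      Finset.sum_nonneg fun i _ => mul_self_nonneg _
    have h4 := (Finset.sum_eq_zero_iff_of_nonneg h3).1 h2.symm 1 (Finset.mem_univ _)
    rw [map_one, Matrix.one_mulVec] at h4
    exact hv0 (dotProduct_self_eq_zero.1 h4)
  have hu : IsUnit B.det := isUnit_iff_ne_zero.2 hdet
  have h5 : (M g⁻¹)ᵀ = B * M g * B⁻¹ := by
    rw [h1, Matrix.mul_assoc, Matrix.mul_nonsing_inv _ hu, Matrix.mul_one]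
  calc (M g⁻¹).trace = ((M g⁻¹)ᵀ).trace := (Matrix.trace_transpose _).symm
    _ = (B⁻¹ * (B * M g)).trace := by rw [h5, Matrix.trace_mul_comm]
    _ = (M g).trace := by rw [← Matrix.mul_assoc, Matrix.nonsing_inv_mul _ hu, Matrix.one_mul]

/-- a sum over the elements of a group of odd order -/
theorem sum_inv {N : Type} [Group N] [Fintype N] (hodd : Odd (Fintype.card N)) (t : N → ℤ)
    (ht : ∀ g, t g⁻¹ = t g) : Even (∑ g : N, t g + t 1) := by
  classical
  have h1 : ∑ g ∈ Finset.univ.erase (1 : N), ((t g : ℤ) : ZMod 2) = 0 := by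
    refine Finset.sum_involution (fun g _ => g⁻¹) ?_ ?_ ?_ ?_
    · intro g _
      rw [ht, ← two_mul]
      have : (2 : ZMod 2) = 0 := by decide
      rw [this, zero_mul]
    · intro g hg _ h
      have h2 : g ^ 2 = 1 := by
        rw [sq]
        nth_rewrite 1 [← h]
        exact inv_mul_cancel g
      have h3 : orderOf g ∣ 2 := orderOf_dvd_of_pow_eq_one h2
      have h4 : orderOf g ∣ Fintype.card N := orderOf_dvd_card
      have h5 : orderOf g = 1 := by
        rcases (Nat.dvd_prime Nat.prime_two).1 h3 with h | h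
        · exact h
        · rw [h] at h4
          exact absurd (even_iff_two_dvd.2 h4) (Nat.not_even_iff_odd.2 hodd)
      exact (Finset.mem_erase.1 hg).1 (orderOf_eq_one_iff.1 h5)
    · intro g hg
      refine Finset.mem_erase.2 ⟨?_, Finset.mem_univ _⟩
      intro h
      exact (Finset.mem_erase.1 hg).1 (inv_eq_one.1 h)
    · intro g _
      exact inv_inv g
  have h2 : ∑ g : N, t g = t 1 + ∑ g ∈ Finset.univ.erase (1 : N), t g :=
    (Finset.add_sum_erase _ _ (Finset.mem_univ _)).symm
  have h3 : Even (∑ g ∈ Finset.univ.erase (1 : N), t g) := by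
    have h4 : (((∑ g ∈ Finset.univ.erase (1 : N), t g : ℤ)) : ZMod 2) = 0 := by
      push_cast
      exact h1
    have h5 := (ZMod.intCast_zmod_eq_zero_iff_dvd _ 2).1 h4
    rw [even_iff_two_dvd]
    exact_mod_cast h5
  rw [h2]
  obtain ⟨k, hk⟩ := h3
  rw [hk]
  exact ⟨t 1 + k, by ring⟩

/-- a free group with an action of a group of odd order and norm zero -/
theorem even_free {N : Type} [Group N] [Fintype N] (hodd : Odd (Fintype.card N)) {W : Type}
    [AddCommGroup W] [Module.Finite ℤ W] [Module.Free ℤ W] (ρ : N →* (W →ₗ[ℤ] W))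
    (h : ∑ g : N, ρ g = 0) : Even (Module.finrank ℤ W) := by
  classical
  set b := Module.finBasis ℤ W with hb
  let Φ : (W →ₗ[ℤ] W) →* Matrix (Fin (Module.finrank ℤ W)) (Fin (Module.finrank ℤ W)) ℤ :=
    (LinearMap.toMatrixAlgEquiv b : (W →ₗ[ℤ] W) ≃ₐ[ℤ] _)
  let M : N →* Matrix (Fin (Module.finrank ℤ W)) (Fin (Module.finrank ℤ W)) ℤ := Φ.comp ρ
  let MR : N →* Matrix (Fin (Module.finrank ℤ W)) (Fin (Module.finrank ℤ W)) ℝ :=
    ((Int.castRingHom ℝ).mapMatrix : _ →+* _).toMonoidHom.comp M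
  have htr : ∀ g, ((M g).trace : ℝ) = (MR g).trace := by
    intro g
    show ((M g).trace : ℝ) = ((M g).map (Int.castRingHom ℝ)).trace
    unfold Matrix.trace
    push_cast
    rfl
  have hinv : ∀ g, (M g⁻¹).trace = (M g).trace := by
    intro g
    have h1 := trace_inv MR g
    rw [← htr, ← htr] at h1
    exact_mod_cast h1
  have hsum : ∑ g : N, (M g).trace = 0 := by
    rw [← Matrix.trace_sum]
    have h1 : ∑ g : N, M g = 0 := by
      have h2 : ∑ g : N, M g = (LinearMap.toMatrixAlgEquiv b) (∑ g : N, ρ g) := by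
        rw [map_sum]
        rfl
      rw [h2, h, map_zero]
    rw [h1, Matrix.trace_zero]
  have h1 := sum_inv hodd (fun g => (M g).trace) hinv
  rw [hsum, zero_add, map_one, Matrix.trace_one, Fintype.card_fin] at h1
  exact_mod_cast h1

/-- the elements fixed by the group -/
def fix {N : Type} [Group N] {A : Type} [AddCommGroup A] (ρ : N →* (A →ₗ[ℤ] A)) : Submodule ℤ A where
  carrier := {a | ∀ g, ρ g a = a}
  zero_mem' := fun g => map_zero _
  add_mem' := fun {a b} ha hb g => by rw [map_add, ha g, hb g]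
  smul_mem' := fun c a ha g => by rw [map_smul, ha g]

/-- the rank modulo torsion -/
theorem finrank_quot_torsion (W : Type) [AddCommGroup W] [Module.Finite ℤ W] :
    Module.finrank ℤ (W ⧸ Submodule.torsion ℤ W) = Module.finrank ℤ W := by
  have h1 : Module.finrank ℤ (Submodule.torsion ℤ W) = 0 := by
    rw [Module.finrank_eq_zero_iff_isTorsion]
    exact Submodule.torsion_isTorsion
  have h2 := Submodule.finrank_quotient_add_finrank (R := ℤ) (Submodule.torsion ℤ W)
  omega

/-- **a group of odd order: if the fixed elements are torsion, the rank is even** -/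
theorem even_rank {N : Type} [Group N] [Fintype N] (hodd : Odd (Fintype.card N)) {A : Type}
    [AddCommGroup A] [Module.Finite ℤ A] (ρ : N →* (A →ₗ[ℤ] A))
    (h : ∀ a, (∀ g, ρ g a = a) → ∃ k : ℤ, k ≠ 0 ∧ k • a = 0) : Even (Module.finrank ℤ A) := by
  classical
  set t := Submodule.torsion ℤ A with ht
  have hle : ∀ g, t ≤ t.comap (ρ g) := by
    intro g w hw
    rw [Submodule.mem_comap]
    rw [ht, Submodule.mem_torsion_iff] at hw ⊢
    obtain ⟨a, ha⟩ := hw
    refine ⟨a, ?_⟩
    have h2 : (a : ℤ) • w = 0 := ha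
    show (a : ℤ) • ρ g w = 0
    rw [← map_smul, h2, map_zero]
  let ρ' : N →* ((A ⧸ t) →ₗ[ℤ] (A ⧸ t)) :=
    { toFun := fun g => t.mapQ t (ρ g) (hle g)
      map_one' := by
        refine LinearMap.ext fun x => ?_
        obtain ⟨w, rfl⟩ := Submodule.Quotient.mk_surjective t x
        rw [Submodule.mapQ_apply, map_one]
        rfl
      map_mul' := fun g g' => by
        refine LinearMap.ext fun x => ?_
        obtain ⟨w, rfl⟩ := Submodule.Quotient.mk_surjective t x
        rw [Submodule.mapQ_apply, map_mul, Module.End.mul_apply, Module.End.mul_apply,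
          Submodule.mapQ_apply, Submodule.mapQ_apply] }
  have hap : ∀ g (w : A), ρ' g (Submodule.Quotient.mk w) = Submodule.Quotient.mk (ρ g w) :=
    fun g w => rfl
  have hfree : Module.Free ℤ (A ⧸ t) := inferInstance
  have hr : Module.finrank ℤ (A ⧸ t) = Module.finrank ℤ A := finrank_quot_torsion A
  rw [← hr]
  refine even_free hodd ρ' ?_
  refine LinearMap.ext fun x => ?_
  obtain ⟨w, rfl⟩ := Submodule.Quotient.mk_surjective t x
  rw [LinearMap.sum_apply, LinearMap.zero_apply]
  have h1 : ∑ g : N, ρ' g (Submodule.Quotient.mk w) = Submodule.Quotient.mk (∑ g : N, ρ g w) := by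
    have h2 : (Submodule.Quotient.mk (∑ g : N, ρ g w) : A ⧸ t) = t.mkQ (∑ g : N, ρ g w) := rfl
    rw [h2, map_sum]
    exact Finset.sum_congr rfl fun g _ => hap g w
  rw [h1, Submodule.Quotient.mk_eq_zero, ht, Submodule.mem_torsion_iff]
  obtain ⟨k, hk, hk'⟩ := h (∑ g : N, ρ g w) fun g' => by
    rw [map_sum]
    refine Fintype.sum_equiv (Equiv.mulLeft g') _ _ fun g => ?_
    rw [Equiv.coe_mulLeft, map_mul, Module.End.mul_apply]
  exact ⟨⟨k, mem_nonZeroDivisors_of_ne_zero hk⟩, hk'⟩

end Pool.Agent.U80.OG
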